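import Pool.Agent.H547R7.T_CHE
import Pool.Agent.H547R7.T_CLO
import Pool.Agent.H547R7.T_SLI
import Pool.Agent.H547R7.T_THR
import Pool.Agent.H547R7.T_TST
import Pool.Agent.H670LG.Asm
import Pool.Agent.H670LG.AlsOwner
import Pool.Agent.H670LG.T_AL1
import Pool.Agent.H670LG.T_ALG
import Pool.Agent.H670LG.T_CO1
import Pool.Agent.H670LG.T_CO2
import Pool.Agent.H670LG.T_CPX
import Pool.Agent.H670LG.T_DUA
import Pool.Agent.H670LG.T_EAS
import Pool.Agent.H670LG.T_EXP
import Pool.Agent.H670LG.T_FO1
import Pool.Agent.H670LG.T_FO2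
import Pool.Agent.H670LG.T_FOO
import Pool.Agent.H670LG.T_GAD
import Pool.Agent.H670LG.T_L0
import Pool.Agent.H670LG.T_L1A
import Pool.Agent.H670LG.T_L1P
import Pool.Agent.H670LG.T_L2
import Pool.Agent.H670LG.T_L3
import Pool.Agent.H670LG.T_MOD
import Pool.Agent.H670LG.T_ORG
import Pool.Agent.H670LG.T_SAM
import Pool.Agent.H670LG.T_SBP
import Pool.Agent.H670LG.T_THC
import Pool.Agent.H670LG.T_XOR

/-!
# Logarithmic-seed generators against circuits over sets of Boolean functions: a dichotomy

For the gate sets of affine functions, of conjunctions, of disjunctions and of self-dual functions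
there is an explicit logarithmic-seed generator with advantage `1/m`, against circuits of every
size.  For every other finite gate set `B` (for instance for monotone circuits) and every constant
`0 < ε < 1/6`, a logarithmic-seed generator with advantage `ε` against the circuits over `B` of
size `m` exists if and only if one with advantage `1/8` against all circuits of size `m` exists.
-/

set_option autoImplicit false

namespace Pool.Agent.Results.MP_ca1109_lc.GateSetDichotomy

open Pool.Agent.H547R6 Pool.Agent.H547R7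

/-- **Dichotomy for logarithmic-seed generators over gate sets.** -/
theorem result :
    LogGen (fun m => {C | ∃ (B : Set BFun) (s : ℕ),
      (B ⊆ Aff ∨ B ⊆ Conj ∨ B ⊆ Disj ∨ B ⊆ SelfDual) ∧ Computes B m s C}) (fun m => 1 / m) ∧
    ∀ B : Set BFun, B.Finite → ¬ (B ⊆ Aff ∨ B ⊆ Conj ∨ B ⊆ Disj ∨ B ⊆ SelfDual) →
      ∀ ε : ℝ, 0 < ε → ε < 1 / 6 →
        (LogGen (TB B) (fun _ => ε) ↔ LogGen (T0 1) (fun _ => 1 / 8)) := by
  have hals : S_ALS := Pool.Agent.H670LG.t_ALS
  have hcor : S_COR := cor_of (t_CO1 t_CHE t_EXP) t_CO2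
  have hcpx : S_CPX := t_CPX (t_TST t_THR (t_SLI t_THR))
  exact main_of (t_EAS (t_ALG t_AL1) (t_FOO t_FO1 t_FO2) t_SBP)
    (t_L1A hals t_MOD t_GAD hcor hcpx t_L1P)
    (t_L2 t_L0 t_SAM t_XOR t_SHI t_THC) (t_L3 t_L0 t_ORG) t_DUA

end Pool.Agent.Results.MP_ca1109_lc.GateSetDichotomy
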